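import Pool.Agent.V7H81.ZT.A

/-!
# The real form of the integral over the cube
-/

set_option autoImplicit false

open Set MeasureTheory

namespace Pool.Agent.V7H81.ZT

open Pool.Agent.R352.E Pool.Agent.R352.Q

lemma three_box {x : ℝ} (hx : 0 < x) :
    ∫ t in cube 3 (Ioo 0 x), Real.log (t 0 * t 1 / t 2 ^ 2) ^ 3 * Real.exp (-(t 0 + t 1 + t 2)) = 12 * Zk 3 x := by
  have h1 : ((∫ t in cube 3 (Ioo 0 x), Real.log (t 0 * t 1 / t 2 ^ 2) ^ 3 *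
      Real.exp (-(t 0 + t 1 + t 2)) : ℝ) : ℂ) = ((12 * Zk 3 x : ℝ) : ℂ) := by
    rw [show ((∫ t in cube 3 (Ioo 0 x), Real.log (t 0 * t 1 / t 2 ^ 2) ^ 3 *
      Real.exp (-(t 0 + t 1 + t 2)) : ℝ) : ℂ) = ∫ t in cube 3 (Ioo 0 x), ((Real.log (t 0 * t 1 / t 2 ^ 2) ^ 3 *
        Real.exp (-(t 0 + t 1 + t 2)) : ℝ) : ℂ) from integral_ofReal.symm]
    have h2 : ∫ t in cube 3 (Ioo 0 x), ((Real.log (t 0 * t 1 / t 2 ^ 2) ^ 3 *
        Real.exp (-(t 0 + t 1 + t 2)) : ℝ) : ℂ) =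
        ∫ t in cube 3 (Ioo 0 x), FI 3 (![1, 1, -2] : Fin 3 → ℂ) t := by
      refine setIntegral_congr_fun (meas_cube 3 measurableSet_Ioo) fun t ht => ?_
      exact (FI_three t fun j => (ht j (mem_univ j)).1).symm
    rw [h2, cube, cube_three Ioo_subset_Ioi_self (deriv_Fs_Ioo hx), const_Fs_Ioo hx]
    have h4 : PowerSeries.coeff 2 (PowerSeries.C (Real.log x) + Ls x) = PowerSeries.coeff 2 (Ls x) :=
      coeff_C_add (k := 3) (by norm_num) (Real.log x) (Ls x)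
    rw [h4, Zk]
    congr 1
    norm_num
  exact_mod_cast h1

end Pool.Agent.V7H81.ZT
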