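import Pool.Agent.N743.Alg
import Pool.Agent.N743.SS.Pair
import Pool.Agent.R352.Q.Three

/-!
# Joint measures for `ζ(3)` and the tails of its triple integral
-/

set_option autoImplicit false

open Set MeasureTheory

namespace Pool.Agent.V7H81.ZT

open Pool.Agent.R352.E Pool.Agent.R352.Q Pool.Agent.N743.SS
open Pool.Agent.R356 (JointR)

open PowerSeries in
/-- the third incomplete zeta value as a polynomial in the functions `E_l` -/
lemma Zk_three {x : ℝ} (hx : 0 < x) : Zk 3 x = 3 * (1 - Real.exp (-x)) ^ 2 * EE 3 x -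
    3 * (1 - Real.exp (-x)) * EE 1 x * EE 2 x + EE 1 x ^ 3 := by
  have hd := deriv_As hx
  have hA : ∀ n, coeff n (As x) = (-1) ^ n * EE n x := fun n => by rw [As, coeff_mk]
  have hA0 : coeff 0 (As x) = 1 - Real.exp (-x) := by rw [coeff_zero_eq_constantCoeff_apply, const_As]
  have h0 := congrArg (coeff 0) hd
  have h1 := congrArg (coeff 1) hd
  have h2 := congrArg (coeff 2) hd
  have e0 : Finset.HasAntidiagonal.antidiagonal 0 = {((0, 0) : ℕ × ℕ)} := rfl
  have e1 : Finset.HasAntidiagonal.antidiagonal 1 = {((0, 1) : ℕ × ℕ), (1, 0)} := rfl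
  have e2 : Finset.HasAntidiagonal.antidiagonal 2 = {((0, 2) : ℕ × ℕ), (1, 1), (2, 0)} := rfl
  rw [coeff_derivative, coeff_mul, e0, Finset.sum_singleton] at h0
  rw [coeff_derivative, coeff_mul, e1, Finset.sum_pair (by simp)] at h1
  rw [coeff_derivative, coeff_mul, e2, Finset.sum_insert (by simp), Finset.sum_pair (by simp)] at h2
  simp only [zero_add, Nat.cast_zero, Nat.cast_one, Nat.reduceAdd, Nat.cast_ofNat] at h0 h1 h2
  rw [hA 1, hA0] at h0
  rw [hA 1, hA 2, hA0] at h1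
  rw [hA 1, hA 2, hA 3, hA0] at h2
  rw [Zk]
  obtain ⟨a, ha⟩ : ∃ a, a = 1 - Real.exp (-x) := ⟨_, rfl⟩
  rw [← ha] at h0 h1 h2 ⊢
  have h3 : 3 - 1 = 2 := rfl
  rw [h3]
  linear_combination a ^ 2 * h2 + (EE 1 x * a) * h1 + (EE 1 x ^ 2 - a * EE 2 x) * h0

/-- a common denominator of two rational numbers -/
lemma nat_of_den (t : ℚ) (ht : 0 < t) (q : ℕ) (hq : t.den ∣ q) (hq1 : 1 ≤ q) : ∃ m : ℕ, 1 ≤ m ∧ (m : ℝ) / q = t := by
  obtain ⟨c, hc⟩ := hq
  have hc1 : 1 ≤ c := by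
    rcases Nat.eq_zero_or_pos c with rfl | h
    · omega
    · exact h
  have hnum : 0 < t.num := Rat.num_pos.2 ht
  refine ⟨t.num.toNat * c, ?_, ?_⟩
  · have h1 : 1 ≤ t.num.toNat := by omega
    exact Nat.mul_pos h1 hc1
  · have h2 : ((t.num.toNat : ℕ) : ℝ) = ((t.num : ℤ) : ℝ) := by
      have : ((t.num.toNat : ℕ) : ℤ) = t.num := Int.toNat_of_nonneg hnum.le
      exact_mod_cast this
    have h3 : ((t : ℚ) : ℝ) = (t.num : ℝ) / (t.den : ℝ) := by exact_mod_cast (Rat.num_div_den t).symm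
    have h4 : (t.den : ℝ) ≠ 0 := by exact_mod_cast t.den_ne_zero
    have h5 : (c : ℝ) ≠ 0 := by exact_mod_cast (by omega : c ≠ 0)
    rw [hc, h3]
    push_cast
    rw [h2]
    field_simp

/-- the polynomial which gives the third incomplete zeta value -/
noncomputable def cP {k : ℕ} (m : ℕ) (i : Fin k) : MvPolynomial (Option (Fin 3 × Fin k)) ℤ :=
  3 * (1 - MvPolynomial.X none ^ m) ^ 2 * MvPolynomial.X (some (2, i)) -
    3 * (1 - MvPolynomial.X none ^ m) * MvPolynomial.X (some (0, i)) * MvPolynomial.X (some (1, i)) +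
    MvPolynomial.X (some (0, i)) ^ 3

lemma aeval_cP {A : Type*} [CommRing A] {k : ℕ} (m : ℕ) (i : Fin k) (ψ : Option (Fin 3 × Fin k) → A) :
    MvPolynomial.aeval ψ (cP m i) = 3 * (1 - ψ none ^ m) ^ 2 * ψ (some (2, i)) -
      3 * (1 - ψ none ^ m) * ψ (some (0, i)) * ψ (some (1, i)) + ψ (some (0, i)) ^ 3 := by
  simp [cP]

lemma aeval_cP_val {k : ℕ} (mm : Fin k → ℕ) (i : Fin k) {q : ℕ} (hq : 1 ≤ q) (hm : 1 ≤ mm i) {x : ℝ}
    (hx : (mm i : ℝ) / q = x) :
    MvPolynomial.aeval (fun o : Option (Fin 3 × Fin k) =>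
      o.elim (Real.exp (-1 / q)) (fun p => EE (p.1 + 1) ((mm p.2 : ℝ) / q))) (cP (mm i) i) = Zk 3 x := by
  have hq0 : (0 : ℝ) < q := by exact_mod_cast hq
  have hm0 : (0 : ℝ) < mm i := by exact_mod_cast hm
  have hx0 : 0 < x := by rw [← hx]; positivity
  rw [aeval_cP, Zk_three hx0]
  have h1 : Real.exp (-1 / q) ^ mm i = Real.exp (-x) := by
    rw [← Real.exp_nat_mul, ← hx]
    congr 1
    field_simp
  simp only [Option.elim, h1, hx]
  norm_num

/-- `ζ(3)` and a tail -/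
theorem joint_zeta (x : ℚ) (hx : 0 < x) : JointR (zt 3) (Rk 3 x) := by
  obtain ⟨m, hm, hmx⟩ := nat_of_den x hx x.den dvd_rfl x.den_pos
  have hmeas := measM_EE 3 1 (fun _ => m) (fun _ _ _ => Subsingleton.elim _ _) (fun _ => hm) (q := x.den) x.den_pos
  refine jointR_lin _ hmeas _ _ (cP m 0) 1 1 ?_ one_ne_zero ?_
  · rw [map_one, one_mul, one_mul]
    have h := aeval_cP_val (k := 1) (fun _ => m) 0 (q := x.den) x.den_pos hm hmx
    rw [h, Rk]
    ring
  · intro α β _ _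
    refine ⟨fun o => if o = some (2, 0) then (α - β + 1) / 3 else 0, ?_⟩
    rw [aeval_cP, map_one, one_mul, one_mul]
    have h1 : m ≠ 0 := by omega
    simp only [reduceCtorEq, if_false, zero_pow h1, if_true]
    rw [if_neg (by simp), if_neg (by simp)]
    have : (3 * (1 - 0) ^ 2 * ((α - β + 1) / 3) - 3 * (1 - 0) * 0 * 0 + 0 ^ 3 + β - α : ℂ) = 1 := by ring
    rw [this]
    exact one_ne_zero

/-- two tails -/
theorem joint_tails (x y : ℚ) (hx : 0 < x) (hy : 0 < y) (hxy : x ≠ y) : JointR (Rk 3 x) (Rk 3 y) := by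
  have hq1 : 1 ≤ x.den * y.den := Nat.mul_pos x.den_pos y.den_pos
  obtain ⟨m, hm, hmx⟩ := nat_of_den x hx (x.den * y.den) (Dvd.intro _ rfl) hq1
  obtain ⟨n, hn, hny⟩ := nat_of_den y hy (x.den * y.den) (Dvd.intro_left _ rfl) hq1
  have hmn : m ≠ n := by
    rintro rfl
    apply hxy
    have : (x : ℝ) = y := hmx.symm.trans hny
    exact_mod_cast this
  obtain ⟨mm, hmm⟩ : ∃ mm : Fin 2 → ℕ, mm = ![m, n] := ⟨_, rfl⟩
  have hm0 : mm 0 = m := by rw [hmm]; rfl
  have hm1 : mm 1 = n := by rw [hmm]; rfl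
  have hinj : Function.Injective mm := by
    intro i j hij
    fin_cases i <;> fin_cases j
    · rfl
    · exact absurd (hm0.symm.trans (hij.trans hm1)) hmn
    · exact absurd (hm1.symm.trans (hij.trans hm0)) hmn.symm
    · rfl
  have hpos : ∀ i, 1 ≤ mm i := by
    intro i
    fin_cases i
    · exact hm0 ▸ hm
    · exact hm1 ▸ hn
  have hmeas := measM_EE 3 2 mm hinj hpos hq1
  refine jointR_lin _ hmeas _ _ (cP (mm 1) 1 - cP (mm 0) 0) 1 1 ?_ one_ne_zero ?_
  · rw [map_one, one_mul, one_mul, map_sub]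
    have h0 := aeval_cP_val mm 0 (q := x.den * y.den) hq1 (hpos 0) (x := x) (by rw [hm0]; exact hmx)
    have h1 := aeval_cP_val mm 1 (q := x.den * y.den) hq1 (hpos 1) (x := y) (by rw [hm1]; exact hny)
    rw [h0, h1, Rk, Rk]
    ring
  · intro α β _ _
    refine ⟨fun o => if o = some (2, 1) then (α - β + 1) / 3 else 0, ?_⟩
    rw [map_sub, aeval_cP, aeval_cP, map_one, one_mul, one_mul]
    have h1 : mm 0 ≠ 0 := by have := hpos 0; omega
    have h2 : mm 1 ≠ 0 := by have := hpos 1; omega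
    simp only [reduceCtorEq, if_false, zero_pow h1, zero_pow h2, if_true]
    simp
    ring_nf
    simp

/-- the family of `ζ(3)` and the tails -/
noncomputable def fam {n : ℕ} (x : Fin n → ℚ) : Option (Fin n) → ℝ := fun o => o.elim (zt 3) fun i => Rk 3 (x i)

theorem joint_fam {n : ℕ} (x : Fin n → ℚ) (hx : ∀ i, 0 < x i) (hinj : Function.Injective x) (i j : Option (Fin n))
    (hij : i ≠ j) : JointR (fam x i) (fam x j) := by
  rcases i with _ | i <;> rcases j with _ | j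
  · exact absurd rfl hij
  · exact joint_zeta (x j) (hx j)
  · exact (joint_zeta (x i) (hx i)).symm
  · exact joint_tails (x i) (x j) (hx i) (hx j) fun h => hij (congrArg some (hinj h))

end Pool.Agent.V7H81.ZT
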